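import Pool.Agent.SZT.StmtsC

/-!
# SZT, row MII (helper21): the norm ideal
-/

set_option autoImplicit false

namespace Pool.Agent.SZT.H21

open Polynomial NumberField H58Q

theorem bezout {K : Type} [Field K] {f A A' B : K[X]} (h2 : (2 : K) ≠ 0) (hf : Squarefree f)
    (h : B ^ 2 - f = A * A') : ∃ a b c : K[X], a * A + b * A' + c * (2 * B) = 1 := by
  let I : Ideal K[X] := Ideal.span {A, A', 2 * B}
  obtain ⟨p, hp⟩ : ∃ p : K[X], I = Ideal.span {p} :=
    ⟨Submodule.IsPrincipal.generator I, (Ideal.span_singleton_generator I).symm⟩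
  have hdvd : ∀ q ∈ I, p ∣ q := by
    intro q hq
    rw [hp, Ideal.mem_span_singleton] at hq
    exact hq
  have hA : p ∣ A := hdvd A (Ideal.subset_span (by simp))
  have hA' : p ∣ A' := hdvd A' (Ideal.subset_span (by simp))
  have h2B : p ∣ 2 * B := hdvd (2 * B) (Ideal.subset_span (by simp))
  have hB : p ∣ B := by
    have h3 : (C (2 : K)⁻¹ : K[X]) * (2 * B) = B := by
      have h4 : (2 : K[X]) = C (2 : K) := by
        rw [map_ofNat]
      rw [h4, ← mul_assoc, ← C_mul, inv_mul_cancel₀ h2, C_1, one_mul]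
    rw [← h3]
    exact h2B.mul_left _
  have hpp : p * p ∣ f := by
    have h3 : f = B * B - A * A' := by
      rw [← h]
      ring
    rw [h3]
    exact dvd_sub (mul_dvd_mul hB hB) (mul_dvd_mul hA hA')
  have hu : IsUnit p := hf p hpp
  have h1 : (1 : K[X]) ∈ I := by
    rw [hp, Ideal.mem_span_singleton]
    exact hu.dvd
  obtain ⟨a, z, hz, h1⟩ := Ideal.mem_span_insert.1 h1
  obtain ⟨b, c, rfl⟩ := Ideal.mem_span_pair.1 hz
  exact ⟨a, b, c, by rw [h1]; ring⟩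

theorem mii : MiiStatement := by
  intro K _ f A B h2 hf hdvd
  obtain ⟨A', hA'⟩ := hdvd
  obtain ⟨a, b, c, habc⟩ := bezout h2 hf hA'
  have hfe : f = B ^ 2 - A * A' := by
    rw [← hA']
    ring
  apply le_antisymm
  · have hm : ∀ w : Q K f, (⟨A, 0⟩ : Q K f) * w ∈ Ideal.span {(⟨A, 0⟩ : Q K f)} := fun w =>
      Ideal.mul_mem_right _ _ (Ideal.mem_span_singleton_self _)
    have h3 : (⟨-B, 1⟩ : Q K f) * ⟨- -B, 1⟩ = ⟨A, 0⟩ * ⟨-A', 0⟩ := by
      apply QuadraticAlgebra.ext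
      · simp only [QuadraticAlgebra.re_mul]
        rw [hfe]
        ring
      · simp only [QuadraticAlgebra.im_mul]
        ring
    have h4 : (⟨-B, 1⟩ : Q K f) * ⟨A, 0⟩ ∈ Ideal.span {(⟨A, 0⟩ : Q K f)} :=
      Ideal.mul_mem_left _ _ (Ideal.mem_span_singleton_self _)
    have h5 : (⟨-B, 1⟩ : Q K f) * ⟨- -B, 1⟩ ∈ Ideal.span {(⟨A, 0⟩ : Q K f)} := by
      rw [h3]
      exact hm _
    unfold MI
    rw [Ideal.span_pair_mul_span_pair, Ideal.span_le, Set.insert_subset_iff,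
      Set.insert_subset_iff, Set.insert_subset_iff, Set.singleton_subset_iff]
    exact ⟨hm _, hm _, h4, h5⟩
  · rw [Ideal.span_singleton_le_iff_mem]
    have hAA : (⟨A, 0⟩ : Q K f) * ⟨A, 0⟩ ∈ MI f A B * MI f A (-B) :=
      Ideal.mul_mem_mul (Ideal.subset_span (by simp)) (Ideal.subset_span (by simp))
    have hAy : (⟨A, 0⟩ : Q K f) * ⟨- -B, 1⟩ ∈ MI f A B * MI f A (-B) :=
      Ideal.mul_mem_mul (Ideal.subset_span (by simp)) (Ideal.subset_span (by simp))
    have hyA : (⟨-B, 1⟩ : Q K f) * ⟨A, 0⟩ ∈ MI f A B * MI f A (-B) :=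
      Ideal.mul_mem_mul (Ideal.subset_span (by simp)) (Ideal.subset_span (by simp))
    have hyy : (⟨-B, 1⟩ : Q K f) * ⟨- -B, 1⟩ ∈ MI f A B * MI f A (-B) :=
      Ideal.mul_mem_mul (Ideal.subset_span (by simp)) (Ideal.subset_span (by simp))
    have h3 : (⟨A, 0⟩ : Q K f) = ⟨a, 0⟩ * (⟨A, 0⟩ * ⟨A, 0⟩) +
        (⟨-b, 0⟩ * (⟨-B, 1⟩ * ⟨- -B, 1⟩) +
          ⟨c, 0⟩ * (⟨A, 0⟩ * ⟨- -B, 1⟩ - ⟨-B, 1⟩ * ⟨A, 0⟩)) := by
      apply QuadraticAlgebra.ext
      · simp only [QuadraticAlgebra.re_mul, QuadraticAlgebra.im_mul, QuadraticAlgebra.re_add,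
          QuadraticAlgebra.re_sub, QuadraticAlgebra.im_sub]
        rw [hfe]
        linear_combination (-A) * habc
      · simp only [QuadraticAlgebra.re_mul, QuadraticAlgebra.im_mul, QuadraticAlgebra.im_add,
          QuadraticAlgebra.re_sub, QuadraticAlgebra.im_sub]
        ring
    rw [h3]
    exact Ideal.add_mem _ (Ideal.mul_mem_left _ _ hAA) (Ideal.add_mem _ (Ideal.mul_mem_left _ _ hyy)
      (Ideal.mul_mem_left _ _ (Ideal.sub_mem _ hAy hyA)))

end Pool.Agent.SZT.H21
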